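import Pool.Agent.H39.BSel.Final

/-!
Under the Continuum Hypothesis each of the five settings `(d)`, `(e)`, `(g)`, `(j)`, `(l)` of Borel
selection properties is realized by a set of reals.
-/

namespace Pool.Agent.Results.MP_2c0eb1_lc.FiveSettings

open Pool.Agent.H39.BSel

/-- Under the Continuum Hypothesis there are sets of reals having exactly the properties
`(d)` `P₂, P₃`; `(e)` `P₂, P₃, P₇`; `(g)` `P₂, P₃, P₄, P₇`; `(j)` `P₁, P₂, P₃, P₇`;
`(l)` `P₁, P₂, P₃, P₄, P₇` among the seven Borel selection properties. -/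
theorem result (CH : Cardinal.continuum.{0} = Cardinal.aleph 1) :
    (∃ X : Set ℝ, Realizes X {2, 3}) ∧ (∃ X : Set ℝ, Realizes X {2, 3, 7}) ∧
      (∃ X : Set ℝ, Realizes X {2, 3, 4, 7}) ∧ (∃ X : Set ℝ, Realizes X {1, 2, 3, 7}) ∧
      (∃ X : Set ℝ, Realizes X {1, 2, 3, 4, 7}) :=
  main CH

end Pool.Agent.Results.MP_2c0eb1_lc.FiveSettings
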